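import Pool.Agent.Helper45.TY.Count

/-!
The words of length `n` all of whose blocks of length `l` lie in given sets are accepted by a
one-tape machine with `q + 4` states in `O (n l)` steps: block after block, the letters are carried
one by one to the first cell of the block.
-/

set_option autoImplicit false

namespace Pool.Agent.Helper33.TY.Blocks

open Pool.Agent.Helper45.TY

/-- The tape alphabet of the machine. -/
inductive Sym (q : ℕ) : Type
  | cell (a : Fin q)
  | erased
  | acc (b : ℕ) (u : List (Fin q))
  | stop

variable {n q l : ℕ}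

open Classical in
/-- The moves of the machine; the states are forward, seek, back, yes and carry `a`. -/
noncomputable def mv (L : ℕ → Set (List (Fin q))) :
    Fin 4 ⊕ Fin q → Sym q → Option ((Fin 4 ⊕ Fin q) × Sym q × Dir)
  | Sum.inl 0, Sym.erased => some (Sum.inl 0, Sym.erased, Dir.right)
  | Sum.inl 0, Sym.acc b u => some (Sum.inl 1, Sym.acc b u, Dir.right)
  | Sum.inl 0, Sym.stop => some (Sum.inl 3, Sym.stop, Dir.stay)
  | Sum.inl 1, Sym.erased => some (Sum.inl 1, Sym.erased, Dir.right)
  | Sum.inl 1, Sym.cell a => some (Sum.inr a, Sym.erased, Dir.left)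
  | Sum.inl 1, Sym.acc b u => some (Sum.inl 2, Sym.acc b u, Dir.left)
  | Sum.inl 1, Sym.stop => some (Sum.inl 2, Sym.stop, Dir.left)
  | Sum.inr a, Sym.erased => some (Sum.inr a, Sym.erased, Dir.left)
  | Sum.inr a, Sym.acc b u => some (Sum.inl 1, Sym.acc b (u ++ [a]), Dir.right)
  | Sum.inl 2, Sym.erased => some (Sum.inl 2, Sym.erased, Dir.left)
  | Sum.inl 2, Sym.acc b u =>
      if u ∈ L b then some (Sum.inl 0, Sym.acc b u, Dir.right) else none
  | _, _ => none

/-- The machine. -/
noncomputable def mach (L : ℕ → Set (List (Fin q))) : Machine (Fin 4 ⊕ Fin q) (Sym q) where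
  step p g p' g' d := mv L p g = some (p', g', d)
  start := Sum.inl 0
  accept p := p = Sum.inl 3

/-- The encoding of the input. -/
def enc (l : ℕ) (z : ℤ) : Option (Fin q) → Sym q
  | some a => if z.toNat % l = 0 then Sym.acc (z.toNat / l) [a] else Sym.cell a
  | none => Sym.stop

/-- The contents of the cell `j`: the letters before `e` are erased, the letters before `a` are
in the first cells of the blocks. -/
def cv (l : ℕ) (w : Fin n → Fin q) (e a j : ℕ) : Sym q :=
  if hj : j < n then
    (if j % l = 0 then Sym.acc (j / l) (((List.ofFn w).drop j).take (min l (max (a - j) 1)))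
    else if j < e then Sym.erased else Sym.cell (w ⟨j, hj⟩))
  else Sym.stop

/-- The tape. -/
def tp (l : ℕ) (w : Fin n → Fin q) (e a : ℕ) (z : ℤ) : Sym q :=
  if 0 ≤ z then cv l w e a z.toNat else Sym.stop

/-- The block number `b`. -/
def blk (l : ℕ) (w : Fin n → Fin q) (b : ℕ) : List (Fin q) :=
  ((List.ofFn w).drop (b * l)).take l

/-- The configurations of the run, with a bound for the number of the remaining steps. -/
inductive Inv (L : ℕ → Set (List (Fin q))) (l : ℕ) (w : Fin n → Fin q) :
    ℤ → Config (Fin 4 ⊕ Fin q) (Sym q) → Prop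
  | F (k h : ℕ) (m : ℤ) (hk : k ≤ n) (hb : k % l = 0 ∨ k = n) (hh : h ≤ k)
      (hz : ∀ j, h ≤ j → j < k → j % l ≠ 0) (good : ∀ c, c * l < k → blk l w c ∈ L c)
      (hm : ((k : ℤ) - h) + (n - k) * (2 * l + 4) + 1 ≤ m) :
      Inv L l w m ⟨Sum.inl 0, h, tp l w k k⟩
  | S (b k h : ℕ) (m : ℤ) (h1 : b * l < h) (h2 : h ≤ k) (h3 : k ≤ n) (h4 : k ≤ b * l + l)
      (good : ∀ c, c < b → blk l w c ∈ L c)
      (hm : ((k : ℤ) - h) + (n - k) * (2 * l + 4) + 2 * l + 1 ≤ m) :
      Inv L l w m ⟨Sum.inl 1, h, tp l w k k⟩
  | C (b k h : ℕ) (m : ℤ) (hk : k < n) (h1 : b * l ≤ h) (h2 : h < k) (h4 : k < b * l + l)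
      (good : ∀ c, c < b → blk l w c ∈ L c)
      (hm : ((h : ℤ) - (b * l : ℕ)) + 1 + (k - (b * l : ℕ)) + (n - k - 1) * (2 * l + 4) +
        2 * l + 1 ≤ m) :
      Inv L l w m ⟨Sum.inr (w ⟨k, hk⟩), h, tp l w (k + 1) k⟩
  | B (b k h : ℕ) (m : ℤ) (h1 : b * l ≤ h) (h2 : h < k) (h3 : k ≤ n)
      (h4 : k = b * l + l ∨ k = n ∧ k ≤ b * l + l)
      (good : ∀ c, c < b → blk l w c ∈ L c)
      (hm : ((h : ℤ) - (b * l : ℕ)) + 1 + (k - (b * l : ℕ) - 1) + (n - k) * (2 * l + 4) + 1 ≤ m) :
      Inv L l w m ⟨Sum.inl 2, h, tp l w k k⟩
  | Y (h m : ℤ) (t : ℤ → Sym q) (hm : 0 ≤ m) (good : ∀ c, c * l < n → blk l w c ∈ L c) :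
      Inv L l w m ⟨Sum.inl 3, h, t⟩

theorem next_iff (L : ℕ → Set (List (Fin q))) (c c' : Config (Fin 4 ⊕ Fin q) (Sym q)) :
    (mach L).Next c c' ↔ ∃ p' g' d, mv L c.state (c.tape c.head) = some (p', g', d) ∧
      c' = ⟨p', c.head + d.shift, Function.update c.tape c.head g'⟩ := by
  constructor
  · rintro ⟨d, h1, h2, h3⟩
    refine ⟨c'.state, c'.tape c.head, d, h1, ?_⟩
    ext z
    · rfl
    · exact h2
    · show c'.tape z = Function.update c.tape c.head (c'.tape c.head) z
      by_cases hz : z = c.head
      · rw [hz, Function.update_self]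
      · rw [Function.update_of_ne hz]
        exact h3 z hz
  · rintro ⟨p', g', d, h1, rfl⟩
    refine ⟨d, ?_, rfl, fun z hz => Function.update_of_ne hz _ _⟩
    show mv L c.state (c.tape c.head) =
      some (p', Function.update c.tape c.head g' c.head, d)
    rw [Function.update_self]
    exact h1

theorem tp_nat (w : Fin n → Fin q) (e a j : ℕ) : tp l w e a (j : ℤ) = cv l w e a j := by
  rw [tp, if_pos (by positivity), Int.toNat_natCast]

theorem cv_erased (w : Fin n → Fin q) {e a j : ℕ} (h1 : j < n) (h2 : j % l ≠ 0) (h3 : j < e) :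
    cv l w e a j = Sym.erased := by
  rw [cv, dif_pos h1, if_neg h2, if_pos h3]

theorem cv_acc (w : Fin n → Fin q) {e a j : ℕ} (h1 : j < n) (h2 : j % l = 0) :
    cv l w e a j =
      Sym.acc (j / l) (((List.ofFn w).drop j).take (min l (max (a - j) 1))) := by
  rw [cv, dif_pos h1, if_pos h2]

theorem cv_cell (w : Fin n → Fin q) {e a j : ℕ} (h1 : j < n) (h2 : j % l ≠ 0) (h3 : ¬ j < e) :
    cv l w e a j = Sym.cell (w ⟨j, h1⟩) := by
  rw [cv, dif_pos h1, if_neg h2, if_neg h3]

theorem cv_stop (w : Fin n → Fin q) {e a j : ℕ} (h1 : n ≤ j) : cv l w e a j = Sym.stop := by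
  rw [cv, dif_neg (by omega)]

theorem not_start {b j : ℕ} (h1 : b * l < j) (h2 : j < b * l + l) : j % l ≠ 0 := by
  intro h
  obtain ⟨c, rfl⟩ := Nat.dvd_of_mod_eq_zero h
  rw [mul_comm l c] at h1 h2
  have h3 : b < c := lt_of_mul_lt_mul_right h1 (Nat.zero_le l)
  have h4 : c * l < (b + 1) * l := by rw [add_mul, one_mul]; exact h2
  have h5 : c < b + 1 := lt_of_mul_lt_mul_right h4 (Nat.zero_le l)
  omega

theorem cnt_eq {k j : ℕ} (hk : k % l = 0) (hj : j % l = 0) :
    min l (max (k - j) 1) = min l (max (k + 1 - j) 1) := by
  obtain ⟨c, rfl⟩ := Nat.dvd_of_mod_eq_zero hk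
  obtain ⟨d, rfl⟩ := Nat.dvd_of_mod_eq_zero hj
  rcases Nat.lt_or_ge d c with h | h
  · have h1 : l * (d + 1) ≤ l * c := Nat.mul_le_mul_left l h
    rw [Nat.mul_succ] at h1
    omega
  · have h1 : l * c ≤ l * d := Nat.mul_le_mul_left l h
    omega

theorem cnt_eq' {b k j : ℕ} (h1 : b * l < k) (h2 : k < b * l + l) (hj : j % l = 0)
    (hne : j ≠ b * l) : min l (max (k - j) 1) = min l (max (k + 1 - j) 1) := by
  obtain ⟨d, rfl⟩ := Nat.dvd_of_mod_eq_zero hj
  rw [mul_comm l d] at hne ⊢
  rcases Nat.lt_trichotomy d b with h | h | h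
  · have h3 : (d + 1) * l ≤ b * l := Nat.mul_le_mul_right l h
    rw [add_mul, one_mul] at h3
    omega
  · exact absurd (by rw [h]) hne
  · have h3 : (b + 1) * l ≤ d * l := Nat.mul_le_mul_right l h
    rw [add_mul, one_mul] at h3
    omega

theorem tp_ext (w : Fin n → Fin q) {e a e' a' : ℕ} (h : ∀ j, cv l w e a j = cv l w e' a' j) :
    tp l w e a = tp l w e' a' := by
  funext z
  rw [tp, tp]
  by_cases hz : 0 ≤ z
  · rw [if_pos hz, if_pos hz, h]
  · rw [if_neg hz, if_neg hz]

theorem update_ext (w : Fin n → Fin q) {e a e' a' i : ℕ} {g : Sym q} (hg : cv l w e' a' i = g)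
    (h : ∀ j, j ≠ i → cv l w e a j = cv l w e' a' j) :
    Function.update (tp l w e a) (i : ℤ) g = tp l w e' a' := by
  funext z
  by_cases hz : z = i
  · rw [hz, Function.update_self, tp_nat, hg]
  · rw [Function.update_of_ne hz, tp, tp]
    by_cases h0 : 0 ≤ z
    · rw [if_pos h0, if_pos h0, h]
      omega
    · rw [if_neg h0, if_neg h0]

theorem update_same (t : ℤ → Sym q) (z : ℤ) (g : Sym q) (h : t z = g) :
    Function.update t z g = t := by
  rw [← h, Function.update_eq_self]

theorem take_succ_drop (w : Fin n → Fin q) (s j : ℕ) (h : s + j < n) :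
    ((List.ofFn w).drop s).take j ++ [w ⟨s + j, h⟩] = ((List.ofFn w).drop s).take (j + 1) := by
  rw [List.take_add_one]
  congr 1
  rw [List.getElem?_drop, List.getElem?_ofFn, dif_pos h]
  rfl

theorem core (hl : 1 ≤ l) (L : ℕ → Set (List (Fin q))) (w : Fin n → Fin q) {m : ℤ}
    {c : Config (Fin 4 ⊕ Fin q) (Sym q)} (h : Inv L l w m c) :
    (c.state = Sum.inl 3 ∧ ∀ b, b * l < n → blk l w b ∈ L b) ∨
    (mv L c.state (c.tape c.head) = none ∧ ¬ ∀ b, b * l < n → blk l w b ∈ L b) ∨
      ∃ p' g' d, mv L c.state (c.tape c.head) = some (p', g', d) ∧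
        Inv L l w (m - 1) ⟨p', c.head + d.shift, Function.update c.tape c.head g'⟩ := by
  classical
  cases h with
  | F k h m hk hb hh hz good hm =>
    right; right
    rcases lt_or_eq_of_le hh with h2 | h2
    · have e : tp l w k k h = Sym.erased := by
        rw [tp_nat]
        exact cv_erased w (by omega) (hz h le_rfl h2) h2
      refine ⟨Sum.inl 0, Sym.erased, Dir.right, ?_, ?_⟩
      · simp only [e]
        rfl
      · simp only [update_same _ _ _ e]
        have := Inv.F (L := L) (l := l) (w := w) k (h + 1) (m - 1) hk hb h2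
          (fun j h3 h4 => hz j (by omega) h4) good (by push_cast; linarith)
        have e3 : ((h + 1 : ℕ) : ℤ) = (h : ℤ) + Dir.right.shift := by push_cast; rfl
        rw [e3] at this
        exact this
    · subst h2
      rcases lt_or_eq_of_le hk with h3 | h3
      · have hb' : h % l = 0 := by
          rcases hb with hb | hb
          · exact hb
          · omega
        have e : tp l w h h h =
            Sym.acc (h / l) (((List.ofFn w).drop h).take (min l (max (h - h) 1))) := by
          rw [tp_nat]
          exact cv_acc w h3 hb'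
        refine ⟨Sum.inl 1,
          Sym.acc (h / l) (((List.ofFn w).drop h).take (min l (max (h - h) 1))),
          Dir.right, ?_, ?_⟩
        · simp only [e]
          rfl
        · simp only [update_same _ _ _ e]
          have e2 : tp l w h h = tp l w (h + 1) (h + 1) := by
            refine tp_ext w fun j => ?_
            by_cases h5 : j < n
            · by_cases h6 : j % l = 0
              · rw [cv_acc w h5 h6, cv_acc w h5 h6, cnt_eq hb' h6]
              · by_cases h7 : j < h
                · rw [cv_erased w h5 h6 h7, cv_erased w h5 h6 (by omega)]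
                · have h8 : j ≠ h := fun h9 => h6 (by rw [h9]; exact hb')
                  rw [cv_cell w h5 h6 h7, cv_cell w h5 h6 (by omega)]
            · rw [cv_stop w (by omega), cv_stop w (by omega)]
          rw [e2]
          have hb2 : h / l * l = h := Nat.div_mul_cancel (Nat.dvd_of_mod_eq_zero hb')
          have := Inv.S (L := L) (l := l) (w := w) (h / l) (h + 1) (h + 1) (m - 1) (by omega)
            le_rfl h3 (by omega) (fun c hc => good c (by
              calc c * l < h / l * l := Nat.mul_lt_mul_of_pos_right hc (by omega)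
                _ = h := hb2)) (by push_cast at hm ⊢; nlinarith)
          have e3 : ((h + 1 : ℕ) : ℤ) = (h : ℤ) + Dir.right.shift := by push_cast; rfl
          rw [e3] at this
          exact this
      · have e : tp l w h h h = Sym.stop := by
          rw [tp_nat]
          exact cv_stop w (by omega)
        refine ⟨Sum.inl 3, Sym.stop, Dir.stay, ?_, ?_⟩
        · simp only [e]
          rfl
        · refine Inv.Y _ _ _ ?_ (fun c hc => good c (by omega))
          rw [h3] at hm
          linarith
  | S b k h m h1 h2 h3 h4 good hm =>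
    right; right
    rcases lt_or_eq_of_le h2 with h5 | h5
    · have e : tp l w k k h = Sym.erased := by
        rw [tp_nat]
        exact cv_erased w (by omega) (not_start h1 (by omega)) h5
      refine ⟨Sum.inl 1, Sym.erased, Dir.right, ?_, ?_⟩
      · simp only [e]
        rfl
      · simp only [update_same _ _ _ e]
        have := Inv.S (L := L) (l := l) (w := w) b k (h + 1) (m - 1) (by omega) h5 h3 h4 good
          (by push_cast; linarith)
        have e3 : ((h + 1 : ℕ) : ℤ) = (h : ℤ) + Dir.right.shift := by push_cast; rfl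
        rw [e3] at this
        exact this
    · subst h5
      have e3 : ((h - 1 : ℕ) : ℤ) = (h : ℤ) + Dir.left.shift := by
        rw [Nat.cast_sub (by omega)]
        rfl
      by_cases h6 : h < n ∧ h < b * l + l
      · have h7 : h % l ≠ 0 := not_start h1 h6.2
        have e : tp l w h h h = Sym.cell (w ⟨h, h6.1⟩) := by
          rw [tp_nat]
          exact cv_cell w h6.1 h7 (lt_irrefl _)
        refine ⟨Sum.inr (w ⟨h, h6.1⟩), Sym.erased, Dir.left, ?_, ?_⟩
        · simp only [e]
          rfl
        · have e2 : Function.update (tp l w h h) (h : ℤ) Sym.erased = tp l w (h + 1) h := by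
            refine update_ext w (cv_erased w h6.1 h7 (by omega)) fun j hj => ?_
            by_cases h8 : j < n
            · by_cases h9 : j % l = 0
              · rw [cv_acc w h8 h9, cv_acc w h8 h9]
              · by_cases h10 : j < h
                · rw [cv_erased w h8 h9 h10, cv_erased w h8 h9 (by omega)]
                · rw [cv_cell w h8 h9 h10, cv_cell w h8 h9 (by omega)]
            · rw [cv_stop w (by omega), cv_stop w (by omega)]
          simp only [e2]
          have := Inv.C (L := L) (l := l) (w := w) b h (h - 1) (m - 1) h6.1 (by omega) (by omega)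
            h6.2 good (by
              rw [Nat.cast_sub (by omega)]
              have h9 : (h : ℤ) - (b * l : ℕ) ≤ l := by omega
              push_cast at h9 ⊢
              linarith)
          rw [e3] at this
          exact this
      · have h7 : h = b * l + l ∨ h = n ∧ h ≤ b * l + l := by omega
        have hI := Inv.B (L := L) (l := l) (w := w) b h (h - 1) (m - 1) (by omega) (by omega) h3
            h7 good (by
              rw [Nat.cast_sub (by omega)]
              have h9 : (h : ℤ) - (b * l : ℕ) ≤ l := by omega
              push_cast at h9 ⊢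
              linarith)
        rw [e3] at hI
        by_cases h8 : h < n
        · have h9 : h % l = 0 := by
            have h10 : h = (b + 1) * l := by rw [add_mul, one_mul]; omega
            rw [h10, Nat.mul_mod_left]
          have e : tp l w h h h =
              Sym.acc (h / l) (((List.ofFn w).drop h).take (min l (max (h - h) 1))) := by
            rw [tp_nat]
            exact cv_acc w h8 h9
          refine ⟨Sum.inl 2,
            Sym.acc (h / l) (((List.ofFn w).drop h).take (min l (max (h - h) 1))),
            Dir.left, ?_, ?_⟩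
          · simp only [e]
            rfl
          · simp only [update_same _ _ _ e]
            exact hI
        · have e : tp l w h h h = Sym.stop := by
            rw [tp_nat]
            exact cv_stop w (by omega)
          refine ⟨Sum.inl 2, Sym.stop, Dir.left, ?_, ?_⟩
          · simp only [e]
            rfl
          · simp only [update_same _ _ _ e]
            exact hI
  | C b k h m hk h1 h2 h4 good hm =>
    right; right
    rcases lt_or_eq_of_le h1 with h5 | h5
    · have e : tp l w (k + 1) k h = Sym.erased := by
        rw [tp_nat]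
        exact cv_erased w (by omega) (not_start h5 (by omega)) (by omega)
      refine ⟨Sum.inr (w ⟨k, hk⟩), Sym.erased, Dir.left, ?_, ?_⟩
      · simp only [e]
        rfl
      · simp only [update_same _ _ _ e]
        have := Inv.C (L := L) (l := l) (w := w) b k (h - 1) (m - 1) hk (by omega) (by omega)
          h4 good (by
            rw [Nat.cast_sub (by omega)]
            push_cast at hm ⊢
            linarith)
        have e3 : ((h - 1 : ℕ) : ℤ) = (h : ℤ) + Dir.left.shift := by
          rw [Nat.cast_sub (by omega)]
          rfl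
        rw [e3] at this
        exact this
    · have h6 : h % l = 0 := by rw [← h5, Nat.mul_mod_left]
      have h7 : min l (max (k - h) 1) = k - h := by omega
      have e : tp l w (k + 1) k h =
          Sym.acc (h / l) (((List.ofFn w).drop h).take (k - h)) := by
        rw [tp_nat, cv_acc w (by omega) h6, h7]
      have h8 : h + (k - h) = k := by omega
      have e1 : ((List.ofFn w).drop h).take (k - h) ++ [w ⟨k, hk⟩] =
          ((List.ofFn w).drop h).take (min l (max (k + 1 - h) 1)) := by
        have h9 := take_succ_drop w h (k - h) (by omega)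
        have h10 : min l (max (k + 1 - h) 1) = k - h + 1 := by omega
        rw [h10, ← h9]
        simp only [h8]
      refine ⟨Sum.inl 1, Sym.acc (h / l) (((List.ofFn w).drop h).take (k - h) ++ [w ⟨k, hk⟩]),
        Dir.right, ?_, ?_⟩
      · simp only [e]
        rfl
      · have e2 : Function.update (tp l w (k + 1) k) (h : ℤ)
            (Sym.acc (h / l) (((List.ofFn w).drop h).take (k - h) ++ [w ⟨k, hk⟩])) =
            tp l w (k + 1) (k + 1) := by
          refine update_ext w ?_ fun j hj => ?_
          · rw [cv_acc w (by omega) h6, e1]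
          · by_cases h8 : j < n
            · by_cases h9 : j % l = 0
              · rw [cv_acc w h8 h9, cv_acc w h8 h9,
                  cnt_eq' (b := b) (by omega) h4 h9 (by omega)]
              · by_cases h10 : j < k + 1
                · rw [cv_erased w h8 h9 h10, cv_erased w h8 h9 h10]
                · rw [cv_cell w h8 h9 h10, cv_cell w h8 h9 h10]
            · rw [cv_stop w (by omega), cv_stop w (by omega)]
        simp only [e2]
        have := Inv.S (L := L) (l := l) (w := w) b (k + 1) (h + 1) (m - 1) (by omega)
          (by omega) hk (by omega) good (by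
            rw [← h5] at hm ⊢
            push_cast at hm ⊢
            linarith)
        have e3 : ((h + 1 : ℕ) : ℤ) = (h : ℤ) + Dir.right.shift := by push_cast; rfl
        rw [e3] at this
        exact this
  | B b k h m h1 h2 h3 h4 good hm =>
    rcases lt_or_eq_of_le h1 with h5 | h5
    · right; right
      have e : tp l w k k h = Sym.erased := by
        rw [tp_nat]
        exact cv_erased w (by omega) (not_start h5 (by omega)) (by omega)
      refine ⟨Sum.inl 2, Sym.erased, Dir.left, ?_, ?_⟩
      · simp only [e]
        rfl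
      · simp only [update_same _ _ _ e]
        have := Inv.B (L := L) (l := l) (w := w) b k (h - 1) (m - 1) (by omega) (by omega) h3
          h4 good (by
            rw [Nat.cast_sub (by omega)]
            push_cast at hm ⊢
            linarith)
        have e3 : ((h - 1 : ℕ) : ℤ) = (h : ℤ) + Dir.left.shift := by
          rw [Nat.cast_sub (by omega)]
          rfl
        rw [e3] at this
        exact this
    · have h6 : h % l = 0 := by rw [← h5, Nat.mul_mod_left]
      have h7 : h / l = b := by rw [← h5, Nat.mul_div_cancel _ (by omega)]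
      have e : tp l w k k h = Sym.acc b (blk l w b) := by
        rw [tp_nat, cv_acc w (by omega) h6, h7, blk, h5]
        congr 1
        rcases h4 with h4 | h4
        · have h8 : min l (max (k - h) 1) = l := by omega
          rw [h8]
        · have h8 : min l (max (k - h) 1) = n - h := by omega
          rw [h8, List.take_of_length_le, List.take_of_length_le]
          · rw [List.length_drop, List.length_ofFn]
            omega
          · rw [List.length_drop, List.length_ofFn]
      by_cases hw : blk l w b ∈ L b
      · right; right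
        refine ⟨Sum.inl 0, Sym.acc b (blk l w b), Dir.right, ?_, ?_⟩
        · simp only [e]
          show (if blk l w b ∈ L b then _ else none) = _
          rw [if_pos hw]
        · simp only [update_same _ _ _ e]
          have := Inv.F (L := L) (l := l) (w := w) k (h + 1) (m - 1) h3
            (by
              rcases h4 with h4 | h4
              · left
                have h10 : k = (b + 1) * l := by rw [add_mul, one_mul]; omega
                rw [h10, Nat.mul_mod_left]
              · exact Or.inr h4.1)
            h2 (fun j h8 h9 => not_start (b := b) (by omega) (by omega))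
            (fun c hc => by
              have h8 : c * l < (b + 1) * l := by rw [add_mul, one_mul]; omega
              have h9 : c < b + 1 := lt_of_mul_lt_mul_right h8 (Nat.zero_le l)
              rcases Nat.lt_succ_iff_lt_or_eq.mp h9 with h10 | h10
              · exact good c h10
              · rw [h10]
                exact hw)
            (by
              rw [← h5] at hm ⊢
              push_cast at hm ⊢
              linarith)
          have e3 : ((h + 1 : ℕ) : ℤ) = (h : ℤ) + Dir.right.shift := by push_cast; rfl
          rw [e3] at this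
          exact this
      · right; left
        refine ⟨?_, fun hall => hw (hall b (by omega))⟩
        simp only [e]
        show (if blk l w b ∈ L b then _ else none) = _
        rw [if_neg hw]
  | Y h m t hm good => exact Or.inl ⟨rfl, good⟩

theorem inv_nonneg {L : ℕ → Set (List (Fin q))} {w : Fin n → Fin q} {m : ℤ}
    {c : Config (Fin 4 ⊕ Fin q) (Sym q)} (h : Inv L l w m c) : 0 ≤ m := by
  have hl : (0 : ℤ) ≤ 2 * l + 4 := by positivity
  cases h with
  | F k h m hk hb hh hz good hm =>
    have h2 : (0 : ℤ) ≤ (n - k) * (2 * l + 4) := mul_nonneg (by omega) hl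
    omega
  | S b k h m h1 h2 h3 h4 good hm =>
    have h2 : (0 : ℤ) ≤ (n - k) * (2 * l + 4) := mul_nonneg (by omega) hl
    omega
  | C b k h m hk h1 h2 h4 good hm =>
    have h2 : (0 : ℤ) ≤ (n - k - 1) * (2 * l + 4) := mul_nonneg (by omega) hl
    omega
  | B b k h m h1 h2 h3 h4 good hm =>
    have h2 : (0 : ℤ) ≤ (n - k) * (2 * l + 4) := mul_nonneg (by omega) hl
    omega
  | Y h m t hm good => exact hm

theorem mv_yes (L : ℕ → Set (List (Fin q))) (g : Sym q) : mv L (Sum.inl 3) g = none := by
  cases g <;> rfl

theorem sound (hl : 1 ≤ l) {L : ℕ → Set (List (Fin q))} {w : Fin n → Fin q} {t : ℕ}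
    {c c' : Config (Fin 4 ⊕ Fin q) (Sym q)} (hr : (mach L).Reach t c c') :
    ∀ m, Inv L l w m c → c'.state = Sum.inl 3 → ∀ b, b * l < n → blk l w b ∈ L b := by
  induction hr with
  | refl c =>
    intro m h hc
    rcases core hl L w h with h1 | h1 | ⟨p', g', d, h1, _⟩
    · exact h1.2
    · cases h with
      | F k h m hk hb hh hz good hm => simp at hc
      | S b k h m h1 h2 h3 h4 good hm => simp at hc
      | C b k h m hk h1 h2 h4 good hm => simp at hc
      | B b k h m h1 h2 h3 h4 good hm => simp at hc
      | Y h m t hm good => exact good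
    · rw [hc, mv_yes] at h1
      exact absurd h1 (by simp)
  | cons h1 _ ih =>
    intro m h hc
    obtain ⟨p', g', d, h2, h3⟩ := (next_iff L _ _).1 h1
    rcases core hl L w h with h4 | h4 | ⟨p1, g1, d1, h4, h5⟩
    · exact h4.2
    · rw [h4.1] at h2
      exact absurd h2 (by simp)
    · rw [h4, Option.some.injEq, Prod.mk.injEq, Prod.mk.injEq] at h2
      obtain ⟨rfl, rfl, rfl⟩ := h2
      rw [h3] at ih
      exact ih _ h5 hc

theorem complete (hl : 1 ≤ l) {L : ℕ → Set (List (Fin q))} {w : Fin n → Fin q}
    (hw : ∀ b, b * l < n → blk l w b ∈ L b) (t : ℕ) :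
    ∀ c, Inv L l w t c → (mach L).AcceptsIn t c := by
  induction t with
  | zero =>
    intro c h
    rcases core hl L w h with h1 | h1 | ⟨p', g', d, _, h1⟩
    · exact ⟨0, le_rfl, c, .refl c, h1.1⟩
    · exact absurd hw h1.2
    · have := inv_nonneg h1
      simp at this
  | succ t ih =>
    intro c h
    rcases core hl L w h with h1 | h1 | ⟨p', g', d, h1, h2⟩
    · exact ⟨0, by omega, c, .refl c, h1.1⟩
    · exact absurd hw h1.2
    · have h3 : ((t + 1 : ℕ) : ℤ) - 1 = t := by push_cast; ring
      rw [h3] at h2
      obtain ⟨s, hs, c', h4, h5⟩ := ih _ h2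
      exact ⟨s + 1, by omega, c', .cons ((next_iff L _ _).2 ⟨p', g', d, h1, rfl⟩) h4, h5⟩

theorem init_eq (hl : 1 ≤ l) (L : ℕ → Set (List (Fin q))) (w : Fin n → Fin q) :
    (mach L).init (enc l) w = ⟨Sum.inl 0, (0 : ℕ), tp l w 0 0⟩ := by
  ext z
  · rfl
  · rfl
  · show inputTape (enc l) w z = tp l w 0 0 z
    rw [inputTape, tp]
    by_cases h : 0 ≤ z
    · rw [if_pos h]
      by_cases h1 : z < n
      · have h2 : z.toNat < n := by omega
        rw [dif_pos ⟨h, h1⟩]
        by_cases h3 : z.toNat % l = 0
        · rw [cv_acc w h2 h3]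
          show (if z.toNat % l = 0 then Sym.acc (z.toNat / l) [w ⟨z.toNat, _⟩]
            else Sym.cell (w ⟨z.toNat, _⟩)) = _
          rw [if_pos h3]
          have h4 : min l (max (0 - z.toNat) 1) = 0 + 1 := by omega
          rw [h4, ← take_succ_drop w z.toNat 0 (by omega)]
          simp
        · rw [cv_cell w h2 h3 (by omega)]
          show (if z.toNat % l = 0 then Sym.acc (z.toNat / l) [w ⟨z.toNat, _⟩]
            else Sym.cell (w ⟨z.toNat, _⟩)) = _
          rw [if_neg h3]
      · rw [dif_neg (by omega), cv_stop w (by omega)]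
        rfl
    · rw [if_neg h, dif_neg (by omega)]
      rfl

/-- **Block machine.** The words of length `n` over `q` letters all of whose blocks of length `l`
(the last one may be shorter) lie in given sets are accepted by a one-tape machine with `q + 4`
states in at most `n (2 l + 4) + 1` steps. -/
theorem gather_blocks (n q l : ℕ) (hl : 1 ≤ l) (L : ℕ → Set (List (Fin q))) :
    ∃ (Q G : Type) (_ : Fintype Q) (M : Machine Q G) (e : ℤ → Option (Fin q) → G),
      Fintype.card Q = q + 4 ∧
      (∀ w : Fin n → Fin q, M.Accepts (M.init e w) ↔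
        ∀ b, b * l < n → ((List.ofFn w).drop (b * l)).take l ∈ L b) ∧
      ∀ w : Fin n → Fin q, (∀ b, b * l < n → ((List.ofFn w).drop (b * l)).take l ∈ L b) →
        M.AcceptsIn (n * (2 * l + 4) + 1) (M.init e w) := by
  have hA : ∀ w : Fin n → Fin q,
      Inv L l w ((n * (2 * l + 4) + 1 : ℕ) : ℤ) ((mach L).init (enc l) w) := by
    intro w
    rw [init_eq hl]
    refine Inv.F 0 0 _ (Nat.zero_le n) (Or.inl (Nat.zero_mod l)) le_rfl
      (fun j _ h => absurd h (Nat.not_lt_zero j)) (fun c h => absurd h (Nat.not_lt_zero _)) ?_
    push_cast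
    linarith
  refine ⟨Fin 4 ⊕ Fin q, Sym q, inferInstance, mach L, enc l, ?_, ?_, ?_⟩
  · simp [add_comm]
  · intro w
    constructor
    · rintro ⟨t, c', h1, h2⟩
      exact sound hl h1 _ (hA w) h2
    · intro hw
      exact (complete hl hw _ _ (hA w)).accepts
  · intro w hw
    exact complete hl hw _ _ (hA w)

end Pool.Agent.Helper33.TY.Blocks
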