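import Mathlib

/-! Linear codes over the field with two elements without a nonzero word supported in another
word (minimal codes), by counting. -/

set_option autoImplicit false

open Finset

namespace Pool.Agent.Helper33.TY

variable {n : ℕ}

/-- Few rows are orthogonal to two different nonzero vectors, one supported in the other. -/
theorem row_count (u e : Fin n → ZMod 2) (i j : Fin n) (hui : u i = 1) (hei : e i = 1)
    (huj : u j = 0) (hej : e j = 1) :
    (univ.filter fun h : Fin n → ZMod 2 =>
      ∑ k, h k * u k = 0 ∧ ∑ k, h k * e k = 0).card * 4 ≤ 2 ^ n := by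
  classical
  have hdot : ∀ (h : Fin n → ZMod 2) (a b : ZMod 2) (w : Fin n → ZMod 2),
      ∑ k, (h + Pi.single i a + Pi.single j b : Fin n → ZMod 2) k * w k =
        ∑ k, h k * w k + a * w i + b * w j := by
    intro h a b w
    simp only [Pi.add_apply, add_mul, Finset.sum_add_distrib]
    congr 1
    · congr 1
      rw [Finset.sum_eq_single i (fun k _ hk => by rw [Pi.single_eq_of_ne hk, zero_mul])
        (fun h => absurd (Finset.mem_univ i) h), Pi.single_eq_same]
    · rw [Finset.sum_eq_single j (fun k _ hk => by rw [Pi.single_eq_of_ne hk, zero_mul])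
        (fun h => absurd (Finset.mem_univ j) h), Pi.single_eq_same]
  have h4 : (univ : Finset (ZMod 2 × ZMod 2)).card = 4 := by decide
  have hV : (univ : Finset (Fin n → ZMod 2)).card = 2 ^ n := by
    rw [Finset.card_univ, Fintype.card_pi]
    simp [ZMod.card]
  rw [← h4, ← hV, ← Finset.card_product]
  refine Finset.card_le_card_of_injOn
    (fun x => x.1 + Pi.single i x.2.1 + Pi.single j x.2.2) (fun _ _ => Finset.mem_coe.2 (mem_univ _)) ?_
  rintro ⟨h, a, b⟩ hx ⟨h', a', b'⟩ hx' heq
  simp only [Finset.coe_product, Set.mem_prod, Finset.mem_coe, Finset.mem_filter, mem_univ,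
    true_and, and_true] at hx hx'
  simp only at heq
  have h1 := hdot h a b u
  have h2 := hdot h' a' b' u
  have h3 := hdot h a b e
  have h5 := hdot h' a' b' e
  rw [heq] at h1 h3
  rw [h2, hx.1, hx'.1, hui, huj] at h1
  rw [h5, hx.2, hx'.2, hei, hej] at h3
  have ha : a = a' := by
    simpa using h1.symm
  subst ha
  have hb : b = b' := by
    simpa using h3.symm
  subst hb
  have hh : h = h' := by
    have := add_right_cancel (add_right_cancel heq)
    exact this
  rw [hh]

/-- The pairs of vectors, the first supported in the second. -/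
theorem pair_count : (univ.filter fun x : (Fin n → ZMod 2) × (Fin n → ZMod 2) =>
    ∀ k, x.1 k ≠ 0 → x.2 k ≠ 0).card ≤ 3 ^ n := by
  classical
  have h3 : (Fintype.piFinset fun _ : Fin n =>
      ({(0, 0), (0, 1), (1, 1)} : Finset (ZMod 2 × ZMod 2))).card = 3 ^ n := by
    rw [Fintype.card_piFinset_const]
    rfl
  rw [← h3]
  refine Finset.card_le_card_of_injOn (fun x k => (x.1 k, x.2 k)) ?_ ?_
  · intro x hx
    rw [Finset.mem_coe, Finset.mem_filter] at hx
    rw [Finset.mem_coe, Fintype.mem_piFinset]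
    intro k
    have h := hx.2 k
    have hab : ∀ a b : ZMod 2, (a ≠ 0 → b ≠ 0) →
        (a, b) ∈ ({(0, 0), (0, 1), (1, 1)} : Finset (ZMod 2 × ZMod 2)) := by decide
    exact hab _ _ h
  · rintro ⟨a, b⟩ _ ⟨a', b'⟩ _ heq
    have h : ∀ k, (a k, b k) = (a' k, b' k) := fun k => congrFun heq k
    have ha : a = a' := funext fun k => (Prod.ext_iff.1 (h k)).1
    have hb : b = b' := funext fun k => (Prod.ext_iff.1 (h k)).2
    rw [ha, hb]

/-- A matrix with `n - n / 5` rows whose kernel is a minimal code. -/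
theorem exists_matrix (n : ℕ) (hn : 1 ≤ n) : ∃ H : Fin (n - n / 5) → Fin n → ZMod 2,
    ∀ u e : Fin n → ZMod 2, (∀ r, ∑ k, H r k * u k = 0) → (∀ r, ∑ k, H r k * e k = 0) →
      (∀ k, u k ≠ 0 → e k ≠ 0) → u = 0 ∨ u = e := by
  classical
  by_contra hcon
  push Not at hcon
  set m := n - n / 5 with hm
  set P : Finset ((Fin n → ZMod 2) × (Fin n → ZMod 2)) :=
    univ.filter fun x => (∀ k, x.1 k ≠ 0 → x.2 k ≠ 0) ∧ x.1 ≠ 0 ∧ x.1 ≠ x.2 with hP
  have hPc : P.card ≤ 3 ^ n := by
    refine le_trans (Finset.card_le_card ?_) (pair_count (n := n))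
    intro x hx
    rw [hP, Finset.mem_filter] at hx
    rw [Finset.mem_filter]
    exact ⟨mem_univ _, hx.2.1⟩
  -- the matrices with a bad pair
  set Bd : (Fin n → ZMod 2) × (Fin n → ZMod 2) → Finset (Fin m → Fin n → ZMod 2) := fun x =>
    Fintype.piFinset fun _ => univ.filter fun h : Fin n → ZMod 2 =>
      ∑ k, h k * x.1 k = 0 ∧ ∑ k, h k * x.2 k = 0 with hBd
  have hcov : (univ : Finset (Fin m → Fin n → ZMod 2)) ⊆ P.biUnion Bd := by
    intro H _
    obtain ⟨u, e, hu, he, hue, h0, h1⟩ := hcon H
    rw [Finset.mem_biUnion]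
    refine ⟨(u, e), ?_, ?_⟩
    · rw [hP, Finset.mem_filter]
      exact ⟨mem_univ _, hue, h0, h1⟩
    · rw [hBd, Fintype.mem_piFinset]
      intro r
      rw [Finset.mem_filter]
      exact ⟨mem_univ _, hu r, he r⟩
  have hBc : ∀ x ∈ P, (Bd x).card * 4 ^ m ≤ (2 ^ n) ^ m := by
    rintro ⟨u, e⟩ hx
    rw [hP, Finset.mem_filter] at hx
    obtain ⟨_, hue, h0, h1⟩ := hx
    simp only at hue h0 h1
    have hz : ∀ z : ZMod 2, z ≠ 0 → z = 1 := by decide
    obtain ⟨i, hi⟩ : ∃ i, u i ≠ 0 := by
      by_contra hc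
      push Not at hc
      exact h0 (funext hc)
    obtain ⟨j, hj⟩ : ∃ j, u j ≠ e j := by
      by_contra hc
      push Not at hc
      exact h1 (funext hc)
    have huj : u j = 0 := by
      by_contra hc
      exact hj ((hz _ hc).trans (hz _ (hue j hc)).symm)
    have hej : e j = 1 := hz _ fun hc => hj (huj.trans hc.symm)
    have h := row_count u e i j (hz _ hi) (hz _ (hue i hi)) huj hej
    rw [hBd]
    simp only
    rw [Fintype.card_piFinset_const, ← mul_pow]
    exact Nat.pow_le_pow_left h m
  have htot : Fintype.card (Fin m → Fin n → ZMod 2) = (2 ^ n) ^ m := by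
    rw [Fintype.card_pi]
    simp [ZMod.card]
  have h1 : (2 ^ n) ^ m * 4 ^ m ≤ 3 ^ n * (2 ^ n) ^ m := by
    calc (2 ^ n) ^ m * 4 ^ m = (univ : Finset (Fin m → Fin n → ZMod 2)).card * 4 ^ m := by
          rw [Finset.card_univ, htot]
      _ ≤ (∑ x ∈ P, (Bd x).card) * 4 ^ m :=
          Nat.mul_le_mul_right _ ((Finset.card_le_card hcov).trans Finset.card_biUnion_le)
      _ = ∑ x ∈ P, (Bd x).card * 4 ^ m := Finset.sum_mul _ _ _
      _ ≤ ∑ x ∈ P, (2 ^ n) ^ m := Finset.sum_le_sum hBc
      _ = P.card * (2 ^ n) ^ m := by rw [Finset.sum_const, smul_eq_mul]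
      _ ≤ 3 ^ n * (2 ^ n) ^ m := Nat.mul_le_mul_right _ hPc
  have h2 : 4 ^ m ≤ 3 ^ n := by
    have h3 : 0 < (2 ^ n) ^ m := by positivity
    refine Nat.le_of_mul_le_mul_left ?_ h3
    rw [mul_comm _ (3 ^ n)]
    exact h1
  have h3 : (4 ^ m) ^ 5 ≤ (3 ^ n) ^ 5 := Nat.pow_le_pow_left h2 5
  have h4 : 4 ^ (4 * n) ≤ (4 ^ m) ^ 5 := by
    rw [← pow_mul]
    exact Nat.pow_le_pow_right (by norm_num) (by omega)
  have h5 : (3 ^ n) ^ 5 < 4 ^ (4 * n) := by
    rw [← pow_mul, mul_comm n 5, pow_mul, pow_mul]
    exact Nat.pow_lt_pow_left (by norm_num) (by omega)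
  exact absurd (h4.trans h3) (not_le.2 h5)

/-- The kernel of a matrix with `m` rows has at least `2 ^ (n - m)` elements. -/
theorem ker_count {m : ℕ} (hmn : m ≤ n) (H : Fin m → Fin n → ZMod 2) :
    2 ^ (n - m) ≤ (univ.filter fun v : Fin n → ZMod 2 => ∀ r, ∑ k, H r k * v k = 0).card := by
  classical
  have hcard : (univ : Finset (Fin m → ZMod 2)).card * 2 ^ (n - m) ≤
      (univ : Finset (Fin n → ZMod 2)).card := by
    rw [Finset.card_univ, Finset.card_univ, Fintype.card_pi, Fintype.card_pi]
    simp only [ZMod.card, Finset.prod_const, Finset.card_univ, Fintype.card_fin]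
    rw [← pow_add, Nat.add_sub_cancel' hmn]
  obtain ⟨y, _, hy⟩ := Finset.exists_le_card_fiber_of_mul_le_card_of_maps_to
    (f := fun (v : Fin n → ZMod 2) (r : Fin m) => ∑ k, H r k * v k)
    (fun v _ => mem_univ _) ⟨0, mem_univ _⟩ hcard
  rcases (univ.filter fun v : Fin n → ZMod 2 =>
    (fun r : Fin m => ∑ k, H r k * v k) = y).eq_empty_or_nonempty with h0 | ⟨v0, hv0⟩
  · rw [h0, Finset.card_empty] at hy
    have : 0 < 2 ^ (n - m) := by positivity
    omega
  refine hy.trans (Finset.card_le_card_of_injOn (fun v => v - v0) ?_ ?_)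
  · intro v hv
    rw [Finset.mem_coe, Finset.mem_filter] at hv ⊢
    rw [Finset.mem_filter] at hv0
    refine ⟨mem_univ _, fun r => ?_⟩
    have h1 : ∑ k, H r k * v k = y r := congrFun hv.2 r
    have h2 : ∑ k, H r k * v0 k = y r := congrFun hv0.2 r
    simp only [Pi.sub_apply, mul_sub, Finset.sum_sub_distrib]
    rw [h1, h2, sub_self]
  · intro v _ w _ h
    simpa using h

/-- A bit as an element of the field with two elements. -/
def bit (b : Bool) : ZMod 2 := if b then 1 else 0

theorem sum_bit (h c : Fin n → Bool) :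
    ∑ i, bit (h i) * bit (c i) = ((univ.filter fun i => (h i && c i) = true).card : ZMod 2) := by
  rw [Finset.card_filter, Nat.cast_sum]
  refine Finset.sum_congr rfl fun i _ => ?_
  cases h i <;> cases c i <;> simp [bit]

theorem even_iff (h c : Fin n → Bool) :
    Even (univ.filter fun i => (h i && c i) = true).card ↔ ∑ i, bit (h i) * bit (c i) = 0 := by
  rw [sum_bit, ZMod.natCast_eq_zero_iff_even]

theorem bit_decide : ∀ z : ZMod 2, bit (decide (z = 1)) = z := by decide

theorem bit_inj : ∀ a b : Bool, bit a = bit b → a = b := by decide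

/-- A `0`-`1` matrix whose code has many words and no nonzero word supported in a different
word. -/
theorem exists_code (n : ℕ) (hn : 1 ≤ n) : ∃ H : Fin n → Fin n → Bool,
    2 ^ (n / 5) ≤ (univ.filter fun c : Fin n → Bool =>
      ∀ k, Even (univ.filter fun i => (H k i && c i) = true).card).card ∧
    ∀ c e : Fin n → Bool,
      (∀ k, Even (univ.filter fun i => (H k i && c i) = true).card) →
      (∀ k, Even (univ.filter fun i => (H k i && e i) = true).card) →
      (∀ i, c i = true → e i = true) → (c = fun _ => false) ∨ c = e := by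
  classical
  obtain ⟨H, hH⟩ := exists_matrix n hn
  have hmn : n - n / 5 ≤ n := Nat.sub_le _ _
  have hker := ker_count hmn H
  have hsub : n - (n - n / 5) = n / 5 := by omega
  rw [hsub] at hker
  refine ⟨fun k i => if hk : (k : ℕ) < n - n / 5 then decide (H ⟨k, hk⟩ i = 1) else false, ?_, ?_⟩
  · refine hker.trans (Finset.card_le_card_of_injOn (fun v i => decide (v i = 1)) ?_ ?_)
    · intro v hv
      rw [Finset.mem_coe, Finset.mem_filter] at hv ⊢
      refine ⟨mem_univ _, fun k => ?_⟩
      rw [even_iff]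
      by_cases hk : (k : ℕ) < n - n / 5
      · simp only [hk, dif_pos, bit_decide]
        exact hv.2 ⟨k, hk⟩
      · simp only [hk, dif_neg, not_false_iff]
        simp [bit]
    · intro v _ w _ h
      funext i
      have h1 : decide (v i = 1) = decide (w i = 1) := congrFun h i
      rw [← bit_decide (v i), ← bit_decide (w i), h1]
  · intro c e hc he hce
    have key : ∀ d : Fin n → Bool, (∀ k : Fin n, Even (univ.filter fun i =>
        ((if hk : (k : ℕ) < n - n / 5 then decide (H ⟨k, hk⟩ i = 1) else false) && d i) =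
          true).card) → ∀ r, ∑ k, H r k * bit (d k) = 0 := by
      intro d hd r
      have hr : (r : ℕ) < n := lt_of_lt_of_le r.2 hmn
      have h1 := (even_iff _ _).1 (hd ⟨r, hr⟩)
      have h2 : ((⟨r, hr⟩ : Fin n) : ℕ) < n - n / 5 := r.2
      simp only [h2, dif_pos, bit_decide] at h1
      exact h1
    have hsup : ∀ k, bit (c k) ≠ 0 → bit (e k) ≠ 0 := by
      intro k hk
      have h1 : c k = true := by
        by_contra h2
        rw [Bool.not_eq_true] at h2
        rw [h2] at hk
        exact hk rfl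
      rw [hce k h1]
      decide
    rcases hH (fun k => bit (c k)) (fun k => bit (e k)) (key c hc) (key e he) hsup with h | h
    · left
      funext i
      have h1 : bit (c i) = 0 := congrFun h i
      refine bit_inj _ _ (h1.trans ?_)
      rfl
    · right
      funext i
      exact bit_inj _ _ (congrFun h i)

end Pool.Agent.Helper33.TY
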