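import Pool.Agent.Helper45.TY.Count

/-!
Every set of words of length `n` is accepted by a one-tape machine with `q + 3` states in
`n ^ 2 + O (n)` steps (the tape alphabet is arbitrary): the letters are carried one by one to the
cell `-1`.
-/

set_option autoImplicit false

namespace Pool.Agent.Helper33.TY

open Pool.Agent.Helper45.TY

/-- The tape alphabet of the machine. -/
inductive Sym (q : ℕ) : Type
  | letter (a : Fin q)
  | erased
  | acc (l : List (Fin q))
  | stop

variable {n q : ℕ}

open Classical in
/-- The moves of the machine; the states are seek, check, yes and carry `a`. -/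
noncomputable def mv (L : Set (Fin n → Fin q)) :
    Fin 3 ⊕ Fin q → Sym q → Option ((Fin 3 ⊕ Fin q) × Sym q × Dir)
  | Sum.inl 0, Sym.erased => some (Sum.inl 0, Sym.erased, Dir.right)
  | Sum.inl 0, Sym.letter a => some (Sum.inr a, Sym.erased, Dir.left)
  | Sum.inl 0, Sym.stop => some (Sum.inl 1, Sym.stop, Dir.left)
  | Sum.inr a, Sym.erased => some (Sum.inr a, Sym.erased, Dir.left)
  | Sum.inr a, Sym.acc l => some (Sum.inl 0, Sym.acc (l ++ [a]), Dir.right)
  | Sum.inl 1, Sym.erased => some (Sum.inl 1, Sym.erased, Dir.left)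
  | Sum.inl 1, Sym.acc l =>
      if ∃ w ∈ L, List.ofFn w = l then some (Sum.inl 2, Sym.acc l, Dir.stay) else none
  | _, _ => none

/-- The machine. -/
noncomputable def mach (L : Set (Fin n → Fin q)) : Machine (Fin 3 ⊕ Fin q) (Sym q) where
  step p g p' g' d := mv L p g = some (p', g', d)
  start := Sum.inl 0
  accept p := p = Sum.inl 2

/-- The encoding of the input. -/
def enc (z : ℤ) : Option (Fin q) → Sym q
  | some a => Sym.letter a
  | none => if z = -1 then Sym.acc [] else Sym.stop

/-- The tape with the list `l` in the cell `-1` and `k` erased letters. -/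
def tp (w : Fin n → Fin q) (k : ℕ) (l : List (Fin q)) (z : ℤ) : Sym q :=
  if z = -1 then Sym.acc l
  else if h : 0 ≤ z ∧ z < n then
    (if z < k then Sym.erased else Sym.letter (w ⟨z.toNat, by omega⟩))
  else Sym.stop

/-- The configurations of the run, with the number of the remaining steps. -/
inductive Inv (L : Set (Fin n → Fin q)) (w : Fin n → Fin q) :
    ℤ → Config (Fin 3 ⊕ Fin q) (Sym q) → Prop
  | A (k : ℕ) (h : ℤ) (hk : k ≤ n) (h0 : 0 ≤ h) (h1 : h ≤ k) :
      Inv L w (((n : ℤ) + 1) * (n + 2) - k * (k + 1) - h)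
        ⟨Sum.inl 0, h, tp w k ((List.ofFn w).take k)⟩
  | B (k : ℕ) (h : ℤ) (hk : k < n) (h0 : -1 ≤ h) (h1 : h < k) :
      Inv L w (h + 2 + ((n : ℤ) + 1) * (n + 2) - (k + 1) * (k + 2))
        ⟨Sum.inr (w ⟨k, hk⟩), h, tp w (k + 1) ((List.ofFn w).take k)⟩
  | C (h : ℤ) (h0 : -1 ≤ h) (h1 : h < n) :
      Inv L w (h + 2) ⟨Sum.inl 1, h, tp w n (List.ofFn w)⟩
  | D (h : ℤ) (t : ℤ → Sym q) (hw : w ∈ L) : Inv L w 0 ⟨Sum.inl 2, h, t⟩

theorem next_iff (L : Set (Fin n → Fin q)) (c c' : Config (Fin 3 ⊕ Fin q) (Sym q)) :
    (mach L).Next c c' ↔ ∃ p' g' d, mv L c.state (c.tape c.head) = some (p', g', d) ∧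
      c' = ⟨p', c.head + d.shift, Function.update c.tape c.head g'⟩ := by
  constructor
  · rintro ⟨d, h1, h2, h3⟩
    refine ⟨c'.state, c'.tape c.head, d, h1, ?_⟩
    ext z
    · rfl
    · exact h2
    · show c'.tape z = Function.update c.tape c.head (c'.tape c.head) z
      by_cases hz : z = c.head
      · rw [hz, Function.update_self]
      · rw [Function.update_of_ne hz]
        exact h3 z hz
  · rintro ⟨p', g', d, h1, rfl⟩
    refine ⟨d, ?_, rfl, fun z hz => Function.update_of_ne hz _ _⟩
    show mv L c.state (c.tape c.head) =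
      some (p', Function.update c.tape c.head g' c.head, d)
    rw [Function.update_self]
    exact h1

theorem tp_erased (w : Fin n → Fin q) (k : ℕ) (l : List (Fin q)) (z : ℤ) (h0 : 0 ≤ z)
    (h1 : z < n) (h2 : z < k) : tp w k l z = Sym.erased := by
  rw [tp, if_neg (by omega), dif_pos ⟨h0, h1⟩, if_pos h2]

theorem tp_stop (w : Fin n → Fin q) (k : ℕ) (l : List (Fin q)) (z : ℤ) (h1 : (n : ℤ) ≤ z) :
    tp w k l z = Sym.stop := by
  rw [tp, if_neg (by omega), dif_neg (by omega)]

theorem tp_acc (w : Fin n → Fin q) (k : ℕ) (l : List (Fin q)) : tp w k l (-1) = Sym.acc l := by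
  rw [tp, if_pos rfl]

theorem tp_letter (w : Fin n → Fin q) (k : ℕ) (l : List (Fin q)) (hk : k < n) :
    tp w k l k = Sym.letter (w ⟨k, hk⟩) := by
  rw [tp, if_neg (by omega), dif_pos ⟨by omega, by omega⟩, if_neg (by omega)]
  simp

theorem update_same (t : ℤ → Sym q) (z : ℤ) (g : Sym q) (h : t z = g) :
    Function.update t z g = t := by
  rw [← h, Function.update_eq_self]

theorem core (L : Set (Fin n → Fin q)) (w : Fin n → Fin q) {m : ℤ}
    {c : Config (Fin 3 ⊕ Fin q) (Sym q)} (h : Inv L w m c) :
    (c.state = Sum.inl 2 ∧ w ∈ L) ∨ (mv L c.state (c.tape c.head) = none ∧ w ∉ L) ∨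
      ∃ p' g' d, mv L c.state (c.tape c.head) = some (p', g', d) ∧
        Inv L w (m - 1) ⟨p', c.head + d.shift, Function.update c.tape c.head g'⟩ := by
  classical
  cases h with
  | A k h hk h0 h1 =>
    right; right
    rcases lt_or_eq_of_le h1 with h2 | h2
    · have e := tp_erased w k ((List.ofFn w).take k) h h0 (by omega) h2
      refine ⟨Sum.inl 0, Sym.erased, Dir.right, ?_, ?_⟩
      · simp only [e]
        rfl
      · simp only [update_same _ _ _ e]
        have := Inv.A (L := L) (w := w) k (h + 1) hk (by omega) (by omega)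
        have e3 : ((n : ℤ) + 1) * (n + 2) - k * (k + 1) - h - 1 =
            ((n : ℤ) + 1) * (n + 2) - k * (k + 1) - (h + 1) := by ring
        rw [e3]
        exact this
    · rcases lt_or_eq_of_le hk with h3 | h3
      · have e : tp w k ((List.ofFn w).take k) h = Sym.letter (w ⟨k, h3⟩) := by
          rw [h2]
          exact tp_letter w k _ h3
        refine ⟨Sum.inr (w ⟨k, h3⟩), Sym.erased, Dir.left, ?_, ?_⟩
        · simp only [e]
          rfl
        · have e2 : Function.update (tp w k ((List.ofFn w).take k)) h Sym.erased =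
              tp w (k + 1) ((List.ofFn w).take k) := by
            funext z
            by_cases hz : z = h
            · rw [hz, Function.update_self, tp_erased _ _ _ _ h0 (by omega) (by push_cast; omega)]
            · rw [Function.update_of_ne hz, tp, tp]
              by_cases h4 : z = -1
              · rw [if_pos h4, if_pos h4]
              · rw [if_neg h4, if_neg h4]
                by_cases h5 : 0 ≤ z ∧ z < n
                · rw [dif_pos h5, dif_pos h5]
                  by_cases h6 : z < k
                  · rw [if_pos h6, if_pos (by push_cast; omega)]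
                  · rw [if_neg h6, if_neg (by push_cast; omega)]
                · rw [dif_neg h5, dif_neg h5]
          simp only [e2]
          have := Inv.B (L := L) (w := w) k (h - 1) h3 (by omega) (by omega)
          have e3 : ((n : ℤ) + 1) * (n + 2) - k * (k + 1) - h - 1 =
              h - 1 + 2 + ((n : ℤ) + 1) * (n + 2) - (k + 1) * (k + 2) := by
            rw [h2]
            ring
          rw [e3]
          exact this
      · have e : tp w k ((List.ofFn w).take k) h = Sym.stop :=
          tp_stop w k _ h (by omega)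
        refine ⟨Sum.inl 1, Sym.stop, Dir.left, ?_, ?_⟩
        · simp only [e]
          rfl
        · simp only [update_same _ _ _ e]
          have e3 : (List.ofFn w).take k = List.ofFn w := by
            rw [List.take_of_length_le]
            rw [List.length_ofFn, h3]
          have := Inv.C (L := L) (w := w) (h - 1) (by omega) (by omega)
          have e4 : ((n : ℤ) + 1) * (n + 2) - k * (k + 1) - h - 1 = h - 1 + 2 := by
            rw [h2, h3]
            ring
          rw [e3, e4, h3]
          exact this
  | B k h hk h0 h1 =>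
    right; right
    rcases eq_or_lt_of_le h0 with h2 | h2
    · have e : tp w (k + 1) ((List.ofFn w).take k) h = Sym.acc ((List.ofFn w).take k) := by
        rw [← h2]
        exact tp_acc w _ _
      refine ⟨Sum.inl 0, Sym.acc ((List.ofFn w).take k ++ [w ⟨k, hk⟩]), Dir.right, ?_, ?_⟩
      · simp only [e]
        rfl
      · have e1 : (List.ofFn w).take k ++ [w ⟨k, hk⟩] = (List.ofFn w).take (k + 1) := by
          rw [List.take_add_one]
          congr 1
          rw [List.getElem?_ofFn, dif_pos hk]
          rfl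
        have e2 : Function.update (tp w (k + 1) ((List.ofFn w).take k)) h
            (Sym.acc ((List.ofFn w).take (k + 1))) = tp w (k + 1) ((List.ofFn w).take (k + 1)) := by
          funext z
          by_cases hz : z = h
          · rw [hz, Function.update_self, ← h2, tp_acc]
          · rw [Function.update_of_ne hz, tp, tp, if_neg (by omega), if_neg (by omega)]
        simp only [e1, e2]
        have := Inv.A (L := L) (w := w) (k + 1) 0 (by omega) le_rfl (by positivity)
        have e3 : h + 2 + ((n : ℤ) + 1) * (n + 2) - (k + 1) * (k + 2) - 1 =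
            ((n : ℤ) + 1) * (n + 2) - ((k + 1 : ℕ) : ℤ) * (((k + 1 : ℕ) : ℤ) + 1) - 0 := by
          rw [← h2]
          push_cast
          ring
        have e4 : h + Dir.right.shift = 0 := by
          rw [← h2]
          rfl
        rw [e3, e4]
        exact this
    · have e := tp_erased w (k + 1) ((List.ofFn w).take k) h (by omega) (by omega)
        (by push_cast; omega)
      refine ⟨Sum.inr (w ⟨k, hk⟩), Sym.erased, Dir.left, ?_, ?_⟩
      · simp only [e]
        rfl
      · simp only [update_same _ _ _ e]
        have := Inv.B (L := L) (w := w) k (h - 1) hk (by omega) (by omega)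
        have e3 : h + 2 + ((n : ℤ) + 1) * (n + 2) - (k + 1) * (k + 2) - 1 =
            h - 1 + 2 + ((n : ℤ) + 1) * (n + 2) - (k + 1) * (k + 2) := by ring
        rw [e3]
        exact this
  | C h h0 h1 =>
    rcases eq_or_lt_of_le h0 with h2 | h2
    · have e : tp w n (List.ofFn w) h = Sym.acc (List.ofFn w) := by
        rw [← h2]
        exact tp_acc w _ _
      by_cases hw : w ∈ L
      · right; right
        refine ⟨Sum.inl 2, Sym.acc (List.ofFn w), Dir.stay, ?_, ?_⟩
        · simp only [e]
          show (if ∃ w' ∈ L, List.ofFn w' = List.ofFn w then _ else none) = _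
          rw [if_pos ⟨w, hw, rfl⟩]
        · have e3 : h + 2 - 1 = 0 := by omega
          rw [e3]
          exact Inv.D _ _ hw
      · right; left
        refine ⟨?_, hw⟩
        simp only [e]
        show (if ∃ w' ∈ L, List.ofFn w' = List.ofFn w then _ else none) = _
        rw [if_neg]
        rintro ⟨w', hw', h3⟩
        exact hw (List.ofFn_injective h3 ▸ hw')
    · right; right
      have e := tp_erased w n (List.ofFn w) h (by omega) h1 h1
      refine ⟨Sum.inl 1, Sym.erased, Dir.left, ?_, ?_⟩
      · simp only [e]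
        rfl
      · simp only [update_same _ _ _ e]
        have := Inv.C (L := L) (w := w) (h - 1) (by omega) (by omega)
        have e3 : h + 2 - 1 = h - 1 + 2 := by ring
        rw [e3]
        exact this
  | D h t hw => exact Or.inl ⟨rfl, hw⟩

theorem inv_nonneg {L : Set (Fin n → Fin q)} {w : Fin n → Fin q} {m : ℤ}
    {c : Config (Fin 3 ⊕ Fin q) (Sym q)} (h : Inv L w m c) : 0 ≤ m := by
  cases h with
  | A k h hk h0 h1 =>
    have h2 : (k : ℤ) ≤ n := by exact_mod_cast hk
    have h3 : (0 : ℤ) ≤ k := by positivity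
    nlinarith
  | B k h hk h0 h1 =>
    have h2 : (k : ℤ) + 1 ≤ n := by exact_mod_cast hk
    have h3 : (0 : ℤ) ≤ k := by positivity
    nlinarith
  | C h h0 h1 => omega
  | D h t hw => exact le_rfl

theorem mv_yes (L : Set (Fin n → Fin q)) (g : Sym q) : mv L (Sum.inl 2) g = none := by
  cases g <;> rfl

theorem sound {L : Set (Fin n → Fin q)} {w : Fin n → Fin q} {t : ℕ}
    {c c' : Config (Fin 3 ⊕ Fin q) (Sym q)} (hr : (mach L).Reach t c c') :
    ∀ m, Inv L w m c → c'.state = Sum.inl 2 → w ∈ L := by
  induction hr with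
  | refl c =>
    intro m h hc
    rcases core L w h with h1 | h1 | ⟨p', g', d, h1, _⟩
    · exact h1.2
    · cases h with
      | A k h hk h0 h1 => simp at hc
      | B k h hk h0 h1 => simp at hc
      | C h h0 h1 => simp at hc
      | D h t hw => exact hw
    · rw [hc, mv_yes] at h1
      exact absurd h1 (by simp)
  | cons h1 _ ih =>
    intro m h hc
    obtain ⟨p', g', d, h2, h3⟩ := (next_iff L _ _).1 h1
    rcases core L w h with h4 | h4 | ⟨p1, g1, d1, h4, h5⟩
    · exact h4.2
    · rw [h4.1] at h2
      exact absurd h2 (by simp)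
    · rw [h4, Option.some.injEq, Prod.mk.injEq, Prod.mk.injEq] at h2
      obtain ⟨rfl, rfl, rfl⟩ := h2
      rw [h3] at ih
      exact ih _ h5 hc

theorem complete {L : Set (Fin n → Fin q)} {w : Fin n → Fin q} (hw : w ∈ L) (t : ℕ) :
    ∀ c, Inv L w t c → (mach L).AcceptsIn t c := by
  induction t with
  | zero =>
    intro c h
    rcases core L w h with h1 | h1 | ⟨p', g', d, _, h1⟩
    · exact ⟨0, le_rfl, c, .refl c, h1.1⟩
    · exact absurd hw h1.2
    · have := inv_nonneg h1
      simp at this
  | succ t ih =>
    intro c h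
    rcases core L w h with h1 | h1 | ⟨p', g', d, h1, h2⟩
    · exact ⟨0, by omega, c, .refl c, h1.1⟩
    · exact absurd hw h1.2
    · have h3 : ((t + 1 : ℕ) : ℤ) - 1 = t := by push_cast; ring
      rw [h3] at h2
      obtain ⟨s, hs, c', h4, h5⟩ := ih _ h2
      exact ⟨s + 1, by omega, c', .cons ((next_iff L _ _).2 ⟨p', g', d, h1, rfl⟩) h4, h5⟩

theorem init_eq (L : Set (Fin n → Fin q)) (w : Fin n → Fin q) :
    (mach L).init enc w = ⟨Sum.inl 0, 0, tp w 0 ((List.ofFn w).take 0)⟩ := by
  ext z
  · rfl
  · rfl
  · show inputTape enc w z = tp w 0 ((List.ofFn w).take 0) z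
    rw [inputTape, tp]
    by_cases h : 0 ≤ z ∧ z < n
    · rw [dif_pos h, if_neg (by omega), dif_pos h, if_neg (by push_cast; omega)]
      rfl
    · rw [dif_neg h, dif_neg h]
      rfl

/-- **Sharpness.** Every set of words of length `n` over `q` letters is accepted by a one-tape
machine with `q + 3` states in at most `n ^ 2 + 3 n + 2` steps. -/
theorem gather (n q : ℕ) (L : Set (Fin n → Fin q)) :
    ∃ (Q G : Type) (_ : Fintype Q) (M : Machine Q G) (e : ℤ → Option (Fin q) → G),
      Fintype.card Q = q + 3 ∧ (∀ w : Fin n → Fin q, M.Accepts (M.init e w) ↔ w ∈ L) ∧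
      ∀ w ∈ L, M.AcceptsIn (n ^ 2 + 3 * n + 2) (M.init e w) := by
  have hA : ∀ w : Fin n → Fin q, Inv L w ((n ^ 2 + 3 * n + 2 : ℕ) : ℤ) ((mach L).init enc w) := by
    intro w
    have h := Inv.A (L := L) (w := w) 0 0 (Nat.zero_le n) le_rfl le_rfl
    rw [init_eq]
    have e : ((n ^ 2 + 3 * n + 2 : ℕ) : ℤ) =
        ((n : ℤ) + 1) * (n + 2) - ((0 : ℕ) : ℤ) * (((0 : ℕ) : ℤ) + 1) - 0 := by
      push_cast
      ring
    rw [e]
    exact h
  refine ⟨Fin 3 ⊕ Fin q, Sym q, inferInstance, mach L, enc, ?_, ?_, ?_⟩
  · simp [add_comm]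
  · intro w
    constructor
    · rintro ⟨t, c', h1, h2⟩
      exact sound h1 _ (hA w) h2
    · intro hw
      exact (complete hw _ _ (hA w)).accepts
  · intro w hw
    exact complete hw _ _ (hA w)

end Pool.Agent.Helper33.TY
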